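import Mathlib
import Pool.Agent.H183R3.LinForm2

/-!
# Linear forms with full image and small image: decoupling of the classes
-/

set_option autoImplicit false

open Finset

universe u

namespace Pool.Agent.TH282.LF

open H183R3.LF

/-- The pattern `P` (the variable `j` of `G` is given the slot `(P j).1` of `F` and the class `(P j).2`)
is avoidable: there are a finite module `U`, for every class `t` functions `a t i : U → U` with
`∑ i, f i • a t i u = u`, and a point `z` which is not a value of
`∑ j, g j • a (P j).2 (P j).1 (u (P j).2)`. -/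
def Avoidable (R : Type u) [Ring R] {h l : ℕ} (f : Fin h → R) (g : Fin l → R)
    (P : Fin l → Fin h × Fin l) : Prop :=
  ∃ (U : Type u) (_ : AddCommGroup U) (_ : Module R U) (_ : Finite U)
    (a : Fin l → Fin h → U → U) (z : U),
    (∀ t u, ∑ i, f i • a t i u = u) ∧
      ∀ u : Fin l → U, ∑ j, g j • a (P j).2 (P j).1 (u (P j).2) ≠ z

lemma level (R : Type u) [Ring R] {h l : ℕ} (f : Fin h → R) (g : Fin l → R)
    (hh : 0 < h) (hl : 0 < l) (H : ∀ P : Fin l → Fin h × Fin l, Avoidable R f g P) (r : ℕ) :
    ∃ (W : Type u) (_ : AddCommGroup W) (_ : Module R W) (_ : Finite W)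
      (a : Fin h → W → W) (z : W), (∀ w, ∑ i, f i • a i w = w) ∧
      ∀ (i : Fin l → Fin h) (w : Fin l → W), (Set.range w).ncard ≤ r →
        ∑ j, g j • a (i j) (w j) ≠ z := by
  classical
  induction r with
  | zero =>
    obtain ⟨U, i1, i2, i3, a, z, ha, -⟩ := H (fun _ => (⟨0, hh⟩, ⟨0, hl⟩))
    refine ⟨U, i1, i2, i3, a ⟨0, hl⟩, z, ha _, ?_⟩
    intro i w hw
    exfalso
    have h1 : (Set.range w).Nonempty := ⟨w ⟨0, hl⟩, ⟨0, hl⟩, rfl⟩
    have h2 := (Set.ncard_pos (Set.toFinite _)).2 h1
    omega
  | succ r ih =>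
    obtain ⟨W, _, _, _, a, z, ha1, ha2⟩ := ih
    choose U i1 i2 i3 b y hb1 hb2 using H
    let rep : (Fin l → Fin h × W) → W → Fin l := fun σ v =>
      if hv : ∃ j, (σ j).2 = v then hv.choose else ⟨0, hl⟩
    let Q : (Fin l → Fin h × W) → (Fin l → Fin h × Fin l) :=
      fun σ j => ((σ j).1, rep σ (σ j).2)
    refine ⟨W × (∀ σ : Fin l → Fin h × W, U (Q σ)), inferInstance, inferInstance, inferInstance,
      fun i w => (a i w.1, fun σ => b (Q σ) (rep σ w.1) i (w.2 σ)),
      (z, fun σ => y (Q σ)), ?_, ?_⟩
    · intro w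
      refine Prod.ext ?_ ?_
      · rw [Prod.fst_sum]
        exact ha1 w.1
      · rw [Prod.snd_sum]
        funext σ
        rw [Finset.sum_apply]
        exact hb1 (Q σ) (rep σ w.1) (w.2 σ)
    · intro i w hw heq
      by_cases hr : (Set.range (fun j => (w j).1)).ncard ≤ r
      · apply ha2 i (fun j => (w j).1) hr
        have h1 := congrArg Prod.fst heq
        rw [Prod.fst_sum] at h1
        exact h1
      · have himg : Prod.fst '' Set.range w = Set.range (fun j => (w j).1) := by
          rw [← Set.range_comp]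
          rfl
        have hinj : Set.InjOn Prod.fst (Set.range w) := by
          apply Set.injOn_of_ncard_image_eq
          · apply le_antisymm
            · exact Set.ncard_image_le (Set.toFinite _)
            · rw [himg]
              omega
          · exact Set.toFinite _
        set σ : Fin l → Fin h × W := fun j => (i j, (w j).1) with hσ
        have hrep : ∀ j, (w (rep σ (w j).1)).1 = (w j).1 := by
          intro j
          have hv : ∃ j', (σ j').2 = (w j).1 := ⟨j, rfl⟩
          show (w (if hv : ∃ j', (σ j').2 = (w j).1 then hv.choose else ⟨0, hl⟩)).1 = _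
          rw [dif_pos hv]
          exact hv.choose_spec
        have hw' : ∀ j, w (rep σ (w j).1) = w j := fun j => hinj ⟨_, rfl⟩ ⟨_, rfl⟩ (hrep j)
        apply hb2 (Q σ) (fun t => (w t).2 σ)
        have h2 := congrFun (congrArg Prod.snd heq) σ
        rw [Prod.snd_sum, Finset.sum_apply] at h2
        refine Eq.trans ?_ h2
        refine Finset.sum_congr rfl fun j _ => ?_
        show g j • b (Q σ) (rep σ (w j).1) (i j) ((w (rep σ (w j).1)).2 σ)
          = g j • b (Q σ) (rep σ (w j).1) (i j) ((w j).2 σ)
        rw [hw' j]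

/-- **Decoupling.**  Property (S) holds if and only if every pattern is avoidable. -/
theorem propertyS_iff (R : Type u) [Ring R] {h l : ℕ} (f : Fin h → R) (g : Fin l → R)
    (hh : 0 < h) (hl : 0 < l) :
    PropertyS R f g ↔ ∀ P : Fin l → Fin h × Fin l, Avoidable R f g P := by
  constructor
  · intro hS P
    obtain ⟨W, i1, i2, i3, A, hW, hF, hG⟩ := hS 1 one_pos 1 one_pos
    rw [one_mul] at hG
    have hG' : formImage g A ≠ Set.univ := by
      intro h1
      rw [h1] at hG
      have h2 : Nat.card (Set.univ : Set W) = Nat.card W := by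
        rw [Nat.card_coe_set_eq, Set.ncard_univ]
      rw [h2] at hG
      exact lt_irrefl _ hG
    obtain ⟨z, hz⟩ := (Set.ne_univ_iff_exists_notMem _).1 hG'
    have hF' : ∀ w : W, ∃ x : Fin h → W, (∀ i, x i ∈ A) ∧ w = ∑ i, f i • x i := fun w => by
      have : w ∈ formImage f A := by rw [hF]; trivial
      exact this
    choose x hx1 hx2 using hF'
    refine ⟨W, i1, i2, i3, fun _ i u => x u i, z, fun _ u => (hx2 u).symm, fun u heq => hz ?_⟩
    exact ⟨fun j => x (u (P j).2) (P j).1, fun j => hx1 _ _, heq.symm⟩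
  · intro H
    obtain ⟨W, _, _, _, a, z, ha1, ha2⟩ := level R f g hh hl H l
    apply propertyS_of_exists f g W {x | ∃ i w, x = a i w}
    · exact ⟨a ⟨0, hh⟩ 0, _, _, rfl⟩
    · apply Set.eq_univ_of_forall
      intro w
      exact ⟨fun i => a i w, fun i => ⟨i, w, rfl⟩, (ha1 w).symm⟩
    · intro hG
      have h1 : z ∈ formImage g {x | ∃ i w, x = a i w} := by rw [hG]; trivial
      obtain ⟨x, hx1, hx2⟩ := h1
      choose i w hx1 using hx1
      apply ha2 i w
      · rw [← Set.image_univ]
        refine (Set.ncard_image_le (Set.toFinite _)).trans ?_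
        rw [Set.ncard_univ, Nat.card_fin]
      · rw [hx2]
        exact Finset.sum_congr rfl fun j _ => by rw [hx1 j]

end Pool.Agent.TH282.LF
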