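import Mathlib
import Pool.Agent.H183R3.LinForm2
import Pool.Agent.TH282.LF.Decouple

/-!
# Property (S) over the integers, coefficients of `F` equal to `1` or `-1`
-/

set_option autoImplicit false

open Finset

namespace Pool.Agent.TH282.LF

open H183R3.LF

/-- the coefficient vector of the class `t` -/
def cls {h l : ℕ} (g : Fin l → ℤ) (P : Fin l → Fin h × Fin l) (t : Fin l) (i : Fin h) : ℤ :=
  ∑ j ∈ Finset.univ.filter (fun j => P j = (i, t)), g j

lemma sum_classes {h l : ℕ} (g : Fin l → ℤ) (P : Fin l → Fin h × Fin l) (N : ℕ)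
    (a : Fin l → Fin h → ZMod N → ZMod N) (u : Fin l → ZMod N) :
    ∑ j, g j • a (P j).2 (P j).1 (u (P j).2)
      = ∑ t, ∑ i, ((cls g P t i : ℤ) : ZMod N) * a t i (u t) := by
  classical
  rw [← Finset.sum_fiberwise (s := Finset.univ) (g := P), Fintype.sum_prod_type_right]
  refine Finset.sum_congr rfl fun t _ => Finset.sum_congr rfl fun i _ => ?_
  unfold cls
  rw [Int.cast_sum, Finset.sum_mul]
  refine Finset.sum_congr rfl fun j hj => ?_
  simp only [Finset.mem_filter, Finset.mem_univ, true_and] at hj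
  rw [hj, zsmul_eq_mul]

/-- representation functions for each class with prescribed contribution. -/
lemma avoid_of {h l : ℕ} (f : Fin h → ℤ) (g : Fin l → ℤ) (P : Fin l → Fin h × Fin l)
    (N : ℕ) [NeZero N] (z : ZMod N) (C : Fin l → Set (ZMod N))
    (hC : ∀ t, ∃ a : Fin h → ZMod N → ZMod N, (∀ v, ∑ i, f i • a i v = v) ∧
      ∀ v, ∑ i, ((cls g P t i : ℤ) : ZMod N) * a i v ∈ C t)
    (hz : ∀ c : Fin l → ZMod N, (∀ t, c t ∈ C t) → ∑ t, c t ≠ z) : Avoidable ℤ f g P := by
  choose a ha1 ha2 using hC
  refine ⟨ZMod N, inferInstance, inferInstance, inferInstance, a, z, ha1, ?_⟩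
  intro u
  rw [sum_classes]
  exact hz (fun t => ∑ i, ((cls g P t i : ℤ) : ZMod N) * a t i (u t)) (fun t => ha2 t (u t))

/-- a class with one coefficient divisible by `N` contributes nothing. -/
lemma null_class {h l : ℕ} (f : Fin h → ℤ) (g : Fin l → ℤ) (P : Fin l → Fin h × Fin l)
    (hf : ∀ i, f i = 1 ∨ f i = -1) (N : ℕ) (t : Fin l)
    (ht : ∃ i, (N : ℤ) ∣ cls g P t i) :
    ∃ a : Fin h → ZMod N → ZMod N, (∀ v, ∑ i, f i • a i v = v) ∧
      ∀ v, ∑ i, ((cls g P t i : ℤ) : ZMod N) * a i v ∈ ({0} : Set (ZMod N)) := by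
  classical
  obtain ⟨i0, hi0⟩ := ht
  have hff : (f i0 : ℤ) * f i0 = 1 := by
    rcases hf i0 with h | h <;> rw [h] <;> norm_num
  refine ⟨fun i v => if i = i0 then ((f i0 : ℤ) : ZMod N) * v else 0, ?_, ?_⟩
  · intro v
    rw [Finset.sum_eq_single i0]
    · simp only [if_true, zsmul_eq_mul]
      rw [← mul_assoc, ← Int.cast_mul, hff, Int.cast_one, one_mul]
    · intro i _ hi
      simp [hi]
    · intro h
      exact absurd (Finset.mem_univ _) h
  · intro v
    rw [Set.mem_singleton_iff, Finset.sum_eq_single i0]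
    · have : ((cls g P t i0 : ℤ) : ZMod N) = 0 := (ZMod.intCast_zmod_eq_zero_iff_dvd _ _).2 hi0
      rw [this, zero_mul]
    · intro i _ hi
      simp [hi]
    · intro h
      exact absurd (Finset.mem_univ _) h

/-- all classes contribute nothing -/
lemma avoid_null {h l : ℕ} (f : Fin h → ℤ) (g : Fin l → ℤ) (P : Fin l → Fin h × Fin l)
    (hf : ∀ i, f i = 1 ∨ f i = -1) (N : ℕ) (hN : 1 < N)
    (ht : ∀ t, ∃ i, (N : ℤ) ∣ cls g P t i) : Avoidable ℤ f g P := by
  have : NeZero N := ⟨by omega⟩
  have : Fact (1 < N) := ⟨hN⟩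
  apply avoid_of f g P N 1 (fun _ => {0}) (fun t => null_class f g P hf N t (ht t))
  intro c hc h1
  have h2 : ∑ t, c t = 0 := Finset.sum_eq_zero fun t _ => hc t
  rw [h2] at h1
  exact zero_ne_one h1

/-- one class is a section, the others contribute nothing -/
lemma avoid_section {h l : ℕ} (f : Fin h → ℤ) (g : Fin l → ℤ) (P : Fin l → Fin h × Fin l)
    (hf : ∀ i, f i = 1 ∨ f i = -1) (N : ℕ) (hN : 0 < N) (t2 : Fin l) (i i' : Fin h)
    (hd : ¬ (N : ℤ) ∣ f i * cls g P t2 i - f i' * cls g P t2 i')
    (ht : ∀ t, t ≠ t2 → ∃ i, (N : ℤ) ∣ cls g P t i) : Avoidable ℤ f g P := by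
  classical
  have : NeZero N := ⟨by omega⟩
  have hii : i ≠ i' := by
    rintro rfl
    apply hd
    simp
  have hff : ∀ i, (f i : ℤ) * f i = 1 := by
    intro i
    rcases hf i with h | h <;> rw [h] <;> norm_num
  have hffz : ∀ i, ((f i : ℤ) : ZMod N) * ((f i : ℤ) : ZMod N) = 1 := by
    intro i
    rw [← Int.cast_mul, hff, Int.cast_one]
  set d : Fin h → ZMod N := fun i => ((f i : ℤ) : ZMod N) * ((cls g P t2 i : ℤ) : ZMod N) with hdd
  have hd' : d i - d i' ≠ 0 := by
    intro h0
    apply hd
    rw [← ZMod.intCast_zmod_eq_zero_iff_dvd]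
    push_cast
    exact h0
  apply avoid_of f g P N 0 (fun t => if t = t2 then {0}ᶜ else {0})
  · intro t
    by_cases htt : t = t2
    · subst htt
      rw [if_pos rfl]
      refine ⟨fun k v => (if k = i then ((f i : ℤ) : ZMod N) * (v - if d i * v = 0 then 1 else 0)
        else 0) + (if k = i' then ((f i' : ℤ) : ZMod N) * (if d i * v = 0 then 1 else 0) else 0),
        ?_, ?_⟩
      · intro v
        simp only [zsmul_eq_mul, mul_add, mul_ite, mul_zero, Finset.sum_add_distrib,
          Finset.sum_ite_eq', Finset.mem_univ, if_true]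
        by_cases hv : d i * v = 0
        · simp only [hv, if_true]
          linear_combination (v - 1) * hffz i + hffz i'
        · simp only [hv, if_false]
          linear_combination v * hffz i
      · intro v
        rw [Set.mem_compl_singleton_iff]
        simp only [mul_add, mul_ite, mul_zero, Finset.sum_add_distrib,
          Finset.sum_ite_eq', Finset.mem_univ, if_true]
        by_cases hv : d i * v = 0
        · simp only [hv, if_true]
          intro h0
          apply hd'
          simp only [hdd] at hv ⊢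
          linear_combination hv - h0
        · simp only [hv, if_false]
          intro h0
          apply hv
          simp only [hdd]
          linear_combination h0
    · rw [if_neg htt]
      exact null_class f g P hf N t (ht t htt)
  · intro c hc
    rw [Finset.sum_eq_single t2]
    · have := hc t2
      rw [if_pos rfl] at this
      exact this
    · intro t _ htt
      have := hc t
      rw [if_neg htt] at this
      exact this
    · intro h
      exact absurd (Finset.mem_univ _) h

/-- prime modulus, no class proportional -/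
lemma avoid_prime {h l : ℕ} (f : Fin h → ℤ) (g : Fin l → ℤ) (P : Fin l → Fin h × Fin l)
    (p : ℕ) [Fact p.Prime] (hf : (fun i => ((f i : ℤ) : ZMod p)) ≠ 0)
    (ht : ∀ t, ∀ c : ZMod p, c ≠ 0 →
      (fun i => ((cls g P t i : ℤ) : ZMod p)) ≠ c • (fun i => ((f i : ℤ) : ZMod p))) :
    Avoidable ℤ f g P := by
  apply avoid_of f g P p 1 (fun _ => {0})
  · intro t
    obtain ⟨ψ, h1, h2⟩ := exists_psi (fun i => ((f i : ℤ) : ZMod p))
      (fun i => ((cls g P t i : ℤ) : ZMod p)) hf (ht t)
    refine ⟨fun i v => ψ i * v, ?_, ?_⟩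
    · intro v
      simp only [zsmul_eq_mul, ← mul_assoc]
      rw [← Finset.sum_mul, h1, one_mul]
    · intro v
      simp only [← mul_assoc]
      rw [Set.mem_singleton_iff, ← Finset.sum_mul, h2, zero_mul]
  · intro c hc h1
    have h2 : ∑ t, c t = 0 := Finset.sum_eq_zero fun t _ => hc t
    rw [h2] at h1
    exact zero_ne_one h1

end Pool.Agent.TH282.LF
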