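import Mathlib
import Pool.Agent.TH282.LF.Decouple
import Pool.Agent.TH282.LF.Integers

/-!
# Property (S) over the integers: classification for unit coefficients and `l < 3 h`
-/

set_option autoImplicit false

open Finset

universe u

namespace Pool.Agent.TH282.LF

open H183R3.LF

/-- Negative criterion with two classes. -/
lemma not_propertyS_two {R : Type u} [CommRing R] {h l : ℕ} (f : Fin h → R) (g : Fin l → R)
    (hh : 0 < h) (J J' : Fin h → Finset (Fin l)) (c x : R)
    (hJ : ∀ i i', i ≠ i' → Disjoint (J i) (J i')) (hJ' : ∀ i i', i ≠ i' → Disjoint (J' i) (J' i'))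
    (hJJ : ∀ i i', Disjoint (J i) (J' i')) (hcx : IsCoprime c x)
    (h1 : ∀ i, ∑ j ∈ J i, g j = c * f i) (h2 : ∀ i, c ∣ ∑ j ∈ J' i, g j - x * f i) :
    ¬ PropertyS R f g := by
  classical
  intro hS
  obtain ⟨W, _, _, _, A, hW, hF, hG⟩ := hS 1 one_pos 1 one_pos
  rw [one_mul] at hG
  have hG' : formImage g A ≠ Set.univ := by
    intro h1
    rw [h1] at hG
    have h2 : Nat.card (Set.univ : Set W) = Nat.card W := by
      rw [Nat.card_coe_set_eq, Set.ncard_univ]
    rw [h2] at hG
    exact lt_irrefl _ hG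
  obtain ⟨z, hz⟩ := (Set.ne_univ_iff_exists_notMem _).1 hG'
  have hF' : ∀ w : W, ∃ y : Fin h → W, (∀ i, y i ∈ A) ∧ w = ∑ i, f i • y i := fun w => by
    have : w ∈ formImage f A := by rw [hF]; trivial
    exact this
  choose rp rp1 rp2 using hF'
  choose κ hκ using h2
  obtain ⟨α, β, hαβ⟩ := hcx
  set a0 : W := rp 0 ⟨0, hh⟩ with ha0
  set K : Fin h ⊕ Fin h → Finset (Fin l) := Sum.elim J J' with hK
  have hKd : ∀ k k', k ≠ k' → Disjoint (K k) (K k') := by
    rintro (i | i) (i' | i') hne
    · exact hJ i i' fun he => hne (congrArg _ he)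
    · exact hJJ i i'
    · exact (hJJ i' i).symm
    · exact hJ' i i' fun he => hne (congrArg _ he)
  set U : Finset (Fin l) := Finset.univ.biUnion K with hU
  set y' : W := z - ∑ j ∈ Uᶜ, g j • a0 with hy'
  set w2 : W := β • y' with hw2
  set w1 : W := α • y' - ∑ i, κ i • rp w2 i with hw1
  set val : Fin h ⊕ Fin h → W := Sum.elim (rp w1) (rp w2) with hval
  have hvA : ∀ k, val k ∈ A := by
    rintro (i | i)
    · exact rp1 w1 i
    · exact rp1 w2 i
  apply hz
  refine ⟨fun j => if hj : ∃ k, j ∈ K k then val hj.choose else a0, ?_, ?_⟩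
  · intro j
    dsimp only
    split_ifs with hj
    · exact hvA _
    · exact rp1 _ _
  · rw [← Finset.sum_add_sum_compl U]
    have e1 : ∑ j ∈ U, g j • (if hj : ∃ k, j ∈ K k then val hj.choose else a0)
        = ∑ k, (∑ j ∈ K k, g j) • val k := by
      rw [hU, Finset.sum_biUnion]
      · refine Finset.sum_congr rfl fun k _ => ?_
        rw [Finset.sum_smul]
        refine Finset.sum_congr rfl fun j hj => ?_
        have hex : ∃ k, j ∈ K k := ⟨k, hj⟩
        rw [dif_pos hex]
        have : hex.choose = k := by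
          by_contra hne
          exact (Finset.disjoint_left.1 (hKd _ _ hne) hex.choose_spec) hj
        rw [this]
      · intro k _ k' _ hkk
        exact hKd k k' hkk
    have e2 : ∑ j ∈ Uᶜ, g j • (if hj : ∃ k, j ∈ K k then val hj.choose else a0)
        = ∑ j ∈ Uᶜ, g j • a0 := by
      refine Finset.sum_congr rfl fun j hj => ?_
      have : ¬ ∃ k, j ∈ K k := by
        rintro ⟨k, hk⟩
        rw [Finset.mem_compl] at hj
        exact hj (Finset.mem_biUnion.2 ⟨k, Finset.mem_univ _, hk⟩)
      rw [dif_neg this]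
    have e3 : ∑ i, (∑ j ∈ J i, g j) • rp w1 i = c • w1 := by
      have e5 : c • w1 = ∑ i, (c * f i) • rp w1 i := by
        conv_lhs => rw [rp2 w1]
        rw [Finset.smul_sum]
        exact Finset.sum_congr rfl fun i _ => (mul_smul _ _ _).symm
      rw [e5]
      exact Finset.sum_congr rfl fun i _ => by rw [h1]
    have e4 : ∑ i, (∑ j ∈ J' i, g j) • rp w2 i = x • w2 + c • ∑ i, κ i • rp w2 i := by
      have e5 : x • w2 = ∑ i, (x * f i) • rp w2 i := by
        conv_lhs => rw [rp2 w2]
        rw [Finset.smul_sum]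
        exact Finset.sum_congr rfl fun i _ => (mul_smul _ _ _).symm
      rw [e5, Finset.smul_sum, ← Finset.sum_add_distrib]
      refine Finset.sum_congr rfl fun i _ => ?_
      rw [← mul_smul, ← hκ, ← add_smul]
      congr 1
      ring
    have e6 : ∑ k, (∑ j ∈ K k, g j) • val k = y' := by
      rw [Fintype.sum_sum_type]
      show ∑ i, (∑ j ∈ J i, g j) • rp w1 i + ∑ i, (∑ j ∈ J' i, g j) • rp w2 i = y'
      rw [e3, e4, hw1, smul_sub, hw2, smul_smul, smul_smul]
      have e7 : (c * α) • y' + (x * β) • y' = y' := by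
        rw [← add_smul]
        have : c * α + x * β = 1 := by rw [← hαβ]; ring
        rw [this, one_smul]
      rw [← hw2]
      calc (c * α) • y' - c • ∑ i, κ i • rp w2 i + ((x * β) • y' + c • ∑ i, κ i • rp w2 i)
          = (c * α) • y' + (x * β) • y' := by abel
        _ = y' := e7
    rw [e1, e2, e6, hy']
    abel

/-- the positive direction -/
lemma avoidable_int {h l : ℕ} (f : Fin h → ℤ) (g : Fin l → ℤ)
    (hh : 0 < h) (hf : ∀ i, f i = 1 ∨ f i = -1) (hlt : l < 3 * h)
    (hno : ¬ ∃ (J J' : Fin h → Finset (Fin l)) (c x : ℤ),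
      (∀ i i', i ≠ i' → Disjoint (J i) (J i')) ∧ (∀ i i', i ≠ i' → Disjoint (J' i) (J' i')) ∧
      (∀ i i', Disjoint (J i) (J' i')) ∧ IsCoprime c x ∧
      (∀ i, ∑ j ∈ J i, g j = c * f i) ∧ ∀ i, c ∣ ∑ j ∈ J' i, g j - x * f i)
    (P : Fin l → Fin h × Fin l) : Avoidable ℤ f g P := by
  classical
  have hff : ∀ i, f i * f i = 1 := by
    intro i
    rcases hf i with h | h <;> rw [h] <;> norm_num
  have hdis : ∀ (t : Fin l) (i i' : Fin h), i ≠ i' →
      Disjoint (Finset.univ.filter (fun j => P j = (i, t)))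
        (Finset.univ.filter (fun j => P j = (i', t))) := by
    intro t i i' hii
    rw [Finset.disjoint_left]
    intro j hj hj'
    simp only [Finset.mem_filter, Finset.mem_univ, true_and] at hj hj'
    rw [hj] at hj'
    exact hii (Prod.mk.inj hj').1
  have hdis2 : ∀ (t t' : Fin l), t ≠ t' → ∀ (i i' : Fin h),
      Disjoint (Finset.univ.filter (fun j => P j = (i, t)))
        (Finset.univ.filter (fun j => P j = (i', t'))) := by
    intro t t' htt i i'
    rw [Finset.disjoint_left]
    intro j hj hj'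
    simp only [Finset.mem_filter, Finset.mem_univ, true_and] at hj hj'
    rw [hj] at hj'
    exact htt (Prod.mk.inj hj').2
  -- full classes
  have hnf : ∀ t, ¬ (∀ i, ∃ j, P j = (i, t)) → ∃ i, cls g P t i = 0 := by
    intro t ht
    push Not at ht
    obtain ⟨i, hi⟩ := ht
    refine ⟨i, ?_⟩
    unfold cls
    rw [Finset.filter_false_of_mem (fun j _ => hi j), Finset.sum_empty]
  have hfull : ∀ t1 t2 t3 : Fin l, t1 ≠ t2 → t1 ≠ t3 → t2 ≠ t3 → (∀ i, ∃ j, P j = (i, t1)) →
      (∀ i, ∃ j, P j = (i, t2)) → (∀ i, ∃ j, P j = (i, t3)) → False := by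
    intro t1 t2 t3 h12 h13 h23 F1 F2 F3
    have hex : ∀ q : Fin h × Fin 3, ∃ j, P j = (q.1, (![t1, t2, t3] : Fin 3 → Fin l) q.2) := by
      rintro ⟨i, k⟩
      fin_cases k
      · exact F1 i
      · exact F2 i
      · exact F3 i
    choose φ hφ using hex
    have hτ : Function.Injective (![t1, t2, t3] : Fin 3 → Fin l) := by
      intro a b hab
      fin_cases a <;> fin_cases b <;> simp_all
    have hinj : Function.Injective φ := by
      intro q q' he
      have h1 := hφ q
      rw [he, hφ q'] at h1
      have h2 := Prod.mk.inj h1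
      exact Prod.ext h2.1.symm (hτ h2.2.symm)
    have := Fintype.card_le_of_injective φ hinj
    simp only [Fintype.card_prod, Fintype.card_fin] at this
    omega
  by_cases hex : ∃ (t1 : Fin l) (c : ℤ), c ≠ 0 ∧ ∀ i, cls g P t1 i = c * f i
  · obtain ⟨t1, c, hc, ht1⟩ := hex
    have hfull1 : ∀ i, ∃ j, P j = (i, t1) := by
      by_contra hcon
      obtain ⟨i, hi⟩ := hnf t1 hcon
      rw [ht1 i] at hi
      rcases mul_eq_zero.1 hi with h0 | h0
      · exact hc h0
      · have := hff i
        rw [h0] at this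
        norm_num at this
    have hcN : ((c.natAbs : ℕ) : ℤ) ∣ c := Int.natAbs_dvd.2 (dvd_refl c)
    by_cases h2 : ∃ t2, t2 ≠ t1 ∧ ∀ i, ∃ j, P j = (i, t2)
    · obtain ⟨t2, h21, hfull2⟩ := h2
      have hrest : ∀ (N : ℕ), ∀ t, t ≠ t1 → t ≠ t2 → ∃ i, (N : ℤ) ∣ cls g P t i := by
        intro N t h1 h2
        obtain ⟨i, hi⟩ := hnf t (fun hcon => hfull t1 t2 t h21.symm h1.symm h2.symm
          hfull1 hfull2 hcon)
        exact ⟨i, by rw [hi]; exact dvd_zero _⟩
      by_cases ha : ∃ i i', ¬ c ∣ f i * cls g P t2 i - f i' * cls g P t2 i'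
      · obtain ⟨i, i', hii⟩ := ha
        apply avoid_section f g P hf c.natAbs (Int.natAbs_pos.2 hc) t2 i i'
        · rwa [Int.natAbs_dvd]
        · intro t ht
          by_cases htt : t = t1
          · subst htt
            refine ⟨⟨0, hh⟩, ?_⟩
            rw [ht1]
            exact dvd_mul_of_dvd_left hcN _
          · exact hrest _ t htt ht
      · push Not at ha
        set x : ℤ := f ⟨0, hh⟩ * cls g P t2 ⟨0, hh⟩ with hx
        have hdx : ∀ i, c ∣ cls g P t2 i - x * f i := by
          intro i
          have h3 := ha i ⟨0, hh⟩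
          rw [← hx] at h3
          have h4 : cls g P t2 i - x * f i = f i * (f i * cls g P t2 i - x) := by
            linear_combination (-(cls g P t2 i)) * hff i
          rw [h4]
          exact dvd_mul_of_dvd_right h3 _
        have hnc : ¬ IsCoprime c x := by
          intro hcop
          apply hno
          exact ⟨fun i => Finset.univ.filter (fun j => P j = (i, t1)),
            fun i => Finset.univ.filter (fun j => P j = (i, t2)), c, x,
            hdis t1, hdis t2, hdis2 t1 t2 h21.symm, hcop, ht1, hdx⟩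
        have hg1 : Int.gcd c x ≠ 1 := fun h => hnc (Int.isCoprime_iff_gcd_eq_one.2 h)
        have hg0 : Int.gcd c x ≠ 0 := by
          intro h0
          exact hc (Int.gcd_eq_zero_iff.1 h0).1
        apply avoid_null f g P hf (Int.gcd c x) (by omega)
        intro t
        by_cases htt : t = t1
        · subst htt
          refine ⟨⟨0, hh⟩, ?_⟩
          rw [ht1]
          exact dvd_mul_of_dvd_left (Int.gcd_dvd_left ..) _
        · by_cases htt2 : t = t2
          · subst htt2
            refine ⟨⟨0, hh⟩, ?_⟩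
            have h5 : cls g P t ⟨0, hh⟩ = f ⟨0, hh⟩ * x := by
              rw [hx]
              linear_combination (-(cls g P t ⟨0, hh⟩)) * hff ⟨0, hh⟩
            rw [h5]
            exact dvd_mul_of_dvd_right (Int.gcd_dvd_right ..) _
          · exact hrest _ t htt htt2
    · push Not at h2
      have hc1 : c.natAbs ≠ 1 := by
        intro h1
        apply hno
        refine ⟨fun i => Finset.univ.filter (fun j => P j = (i, t1)), fun _ => ∅, c, 0,
          hdis t1, fun _ _ _ => Finset.disjoint_empty_left _, fun _ _ => Finset.disjoint_empty_right _,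
          ?_, ht1, fun i => by simp⟩
        exact isCoprime_zero_right.2 (Int.isUnit_iff_natAbs_eq.2 h1)
      have hc0 : 0 < c.natAbs := Int.natAbs_pos.2 hc
      apply avoid_null f g P hf c.natAbs (by omega)
      intro t
      by_cases htt : t = t1
      · subst htt
        refine ⟨⟨0, hh⟩, ?_⟩
        rw [ht1]
        exact dvd_mul_of_dvd_left hcN _
      · obtain ⟨i, hi⟩ := hnf t (fun hcon => by
          obtain ⟨i, hi⟩ := h2 t htt
          obtain ⟨j, hj⟩ := hcon i
          exact hi j hj)
        exact ⟨i, by rw [hi]; exact dvd_zero _⟩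
  · -- a large prime
    push Not at hex
    set B : ℕ := ∑ t : Fin l, ∑ i : Fin h, ∑ i' : Fin h,
      (f i * cls g P t i - f i' * cls g P t i').natAbs with hB
    set C : ℕ := ∑ t : Fin l, ∑ i : Fin h, (cls g P t i).natAbs with hC
    obtain ⟨p, hpB, hp⟩ := Nat.exists_infinite_primes (B + C + 1)
    have : Fact p.Prime := ⟨hp⟩
    have hbB : ∀ t i i', (f i * cls g P t i - f i' * cls g P t i').natAbs ≤ B := by
      intro t i i'
      rw [hB]
      refine le_trans ?_ (Finset.single_le_sum (f := fun t => ∑ i : Fin h, ∑ i' : Fin h,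
        (f i * cls g P t i - f i' * cls g P t i').natAbs) (fun _ _ => Nat.zero_le _)
        (Finset.mem_univ t))
      refine le_trans ?_ (Finset.single_le_sum (f := fun i => ∑ i' : Fin h,
        (f i * cls g P t i - f i' * cls g P t i').natAbs) (fun _ _ => Nat.zero_le _)
        (Finset.mem_univ i))
      exact Finset.single_le_sum (f := fun i' =>
        (f i * cls g P t i - f i' * cls g P t i').natAbs) (fun _ _ => Nat.zero_le _)
        (Finset.mem_univ i')
    apply avoid_prime f g P p
    · intro h0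
      have h1 := congrFun h0 ⟨0, hh⟩
      have h2 : ((f ⟨0, hh⟩ * f ⟨0, hh⟩ : ℤ) : ZMod p) = 0 := by
        rw [Int.cast_mul]
        have h3 : ((f ⟨0, hh⟩ : ℤ) : ZMod p) = 0 := h1
        rw [h3, zero_mul]
      rw [hff, Int.cast_one] at h2
      exact one_ne_zero h2
    · intro t s hs heq
      have hffz : ∀ i, ((f i : ℤ) : ZMod p) * ((f i : ℤ) : ZMod p) = 1 := by
        intro i
        rw [← Int.cast_mul, hff, Int.cast_one]
      have hs' : ∀ i, ((f i * cls g P t i : ℤ) : ZMod p) = s := by
        intro i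
        have h1 : ((cls g P t i : ℤ) : ZMod p) = s * ((f i : ℤ) : ZMod p) := congrFun heq i
        rw [Int.cast_mul, h1]
        linear_combination s * hffz i
      have heq' : ∀ i i', f i * cls g P t i = f i' * cls g P t i' := by
        intro i i'
        have h1 : ((f i * cls g P t i - f i' * cls g P t i' : ℤ) : ZMod p) = 0 := by
          rw [Int.cast_sub, hs', hs', sub_self]
        have h2 := (ZMod.intCast_zmod_eq_zero_iff_dvd _ _).1 h1
        have h3 : p ∣ (f i * cls g P t i - f i' * cls g P t i').natAbs :=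
          Int.natCast_dvd.1 h2
        have h4 := hbB t i i'
        have h5 : (f i * cls g P t i - f i' * cls g P t i').natAbs = 0 :=
          Nat.eq_zero_of_dvd_of_lt h3 (by omega)
        have h6 := Int.natAbs_eq_zero.1 h5
        linarith
      set c : ℤ := f ⟨0, hh⟩ * cls g P t ⟨0, hh⟩ with hc
      have hcc : ∀ i, cls g P t i = c * f i := by
        intro i
        rw [hc, heq' ⟨0, hh⟩ i]
        linear_combination (-(cls g P t i)) * hff i
      by_cases hc0 : c = 0
      · apply hs
        rw [← hs' ⟨0, hh⟩, ← hc, hc0, Int.cast_zero]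
      · obtain ⟨i, hi⟩ := hex t c hc0
        exact hi (hcc i)

/-- Classification over the integers. -/
theorem classification_int {h l : ℕ} (f : Fin h → ℤ) (g : Fin l → ℤ)
    (hh : 0 < h) (hl : 0 < l) (hf : ∀ i, f i = 1 ∨ f i = -1) (hlt : l < 3 * h) :
    PropertyS ℤ f g ↔ ¬ ∃ (J J' : Fin h → Finset (Fin l)) (c x : ℤ),
      (∀ i i', i ≠ i' → Disjoint (J i) (J i')) ∧ (∀ i i', i ≠ i' → Disjoint (J' i) (J' i')) ∧
      (∀ i i', Disjoint (J i) (J' i')) ∧ IsCoprime c x ∧
      (∀ i, ∑ j ∈ J i, g j = c * f i) ∧ ∀ i, c ∣ ∑ j ∈ J' i, g j - x * f i := by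
  constructor
  · rintro hS ⟨J, J', c, x, h1, h2, h3, h4, h5, h6⟩
    exact not_propertyS_two f g hh J J' c x h1 h2 h3 h4 h5 h6 hS
  · intro hno
    rw [propertyS_iff ℤ f g hh hl]
    exact avoidable_int f g hh hf hlt hno

end Pool.Agent.TH282.LF
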