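import Mathlib
import Pool.Agent.H183R3.LinForm2
import Pool.Agent.TH282.LF.Decouple

/-!
# Property (S) over commutative rings: closed ideals
-/

set_option autoImplicit false

open Finset

universe u

namespace Pool.Agent.TH282.LF

open H183R3.LF

/-- the coefficient vector of the class `t` of the pattern `P` -/
def classVec {R : Type u} [Ring R] {h l : ℕ} (g : Fin l → R) (P : Fin l → Fin h × Fin l)
    (t : Fin l) (i : Fin h) : R :=
  ∑ j ∈ Finset.univ.filter (fun j => P j = (i, t)), g j

lemma sum_classVec {R : Type u} [Ring R] {U : Type u} [AddCommGroup U] [Module R U] {h l : ℕ}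
    (g : Fin l → R) (P : Fin l → Fin h × Fin l) (a : Fin l → Fin h → U → U) (u : Fin l → U) :
    ∑ j, g j • a (P j).2 (P j).1 (u (P j).2) = ∑ t, ∑ i, classVec g P t i • a t i (u t) := by
  classical
  rw [← Finset.sum_fiberwise (s := Finset.univ) (g := P), Fintype.sum_prod_type_right]
  refine Finset.sum_congr rfl fun t _ => Finset.sum_congr rfl fun i _ => ?_
  unfold classVec
  rw [Finset.sum_smul]
  refine Finset.sum_congr rfl fun j hj => ?_
  simp only [Finset.mem_filter, Finset.mem_univ, true_and] at hj
  rw [hj]

/-- An avoidable pattern has a closed ideal. -/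
theorem closed_of_avoidable {R : Type u} [CommRing R] {h l : ℕ} (f : Fin h → R) (g : Fin l → R)
    (hl : 0 < l) (P : Fin l → Fin h × Fin l) (H : Avoidable R f g P) :
    ∃ I : Ideal R, I ≠ ⊤ ∧ Finite (R ⧸ I) ∧ I ⊔ Ideal.span (Set.range f) = ⊤ ∧
      ∀ t, (∃ x, ∀ i, classVec g P t i - x * f i ∈ I) → ∀ i, classVec g P t i ∈ I := by
  classical
  obtain ⟨W, _, _, _, a, z, ha, hz⟩ := H
  have hz' : ∀ u : Fin l → W, ∑ t, ∑ i, classVec g P t i • a t i (u t) ≠ z := by
    intro u
    rw [← sum_classVec]
    exact hz u
  clear hz
  set I0 : Ideal R := Module.annihilator R W with hI0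
  have hfin0 : Finite (R ⧸ I0) := by
    let φ : R ⧸ I0 → (W → W) := Quotient.lift (s := Submodule.quotientRel I0)
      (fun r w => r • w) (by
        intro r s hrs
        have h1 : r - s ∈ I0 := (Submodule.quotientRel_def I0).1 hrs
        funext w
        have h2 := (Module.mem_annihilator.1 h1) w
        rw [sub_smul, sub_eq_zero] at h2
        exact h2)
    apply Finite.of_injective φ
    intro x y hxy
    obtain ⟨r, rfl⟩ := Ideal.Quotient.mk_surjective x
    obtain ⟨s, rfl⟩ := Ideal.Quotient.mk_surjective y
    rw [Ideal.Quotient.eq, Module.mem_annihilator]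
    intro w
    have : r • w = s • w := congrFun hxy w
    rw [sub_smul, this, sub_self]
  have hcom0 : I0 ⊔ Ideal.span (Set.range f) = ⊤ := by
    have h1 : (⊤ : Submodule R W) ≤ Ideal.span (Set.range f) • (⊤ : Submodule R W) := by
      intro w _
      rw [← ha ⟨0, hl⟩ w]
      exact Submodule.sum_mem _ fun i _ =>
        Submodule.smul_mem_smul (Ideal.subset_span ⟨i, rfl⟩) trivial
    have hfg : (⊤ : Submodule R W).FG := by
      have : Module.Finite R W := Module.Finite.of_finite
      exact Module.finite_def.1 this
    obtain ⟨r, hr1, hr2⟩ := Submodule.exists_sub_one_mem_and_smul_eq_zero_of_fg_of_le_smul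
      _ (⊤ : Submodule R W) hfg h1
    rw [Ideal.eq_top_iff_one]
    have h2 : r ∈ I0 := Module.mem_annihilator.2 fun w => hr2 w trivial
    have h3 : (1 : R) = r + (-(r - 1)) := by ring
    rw [h3]
    exact Submodule.add_mem_sup h2 ((Ideal.span (Set.range f)).neg_mem hr1)
  -- peeling
  have key : ∀ (n : ℕ) (T : Finset (Fin l)) (I : Ideal R), Tᶜ.card = n → I0 ≤ I →
      (∀ t ∈ T, ∀ i, classVec g P t i ∈ I) →
      (∀ y ∈ I • (⊤ : Submodule R W), ∃ v : Fin l → W,
        ∑ t ∈ T, ∑ i, classVec g P t i • a t i (v t) = y) →
      ∃ I : Ideal R, I ≠ ⊤ ∧ I0 ≤ I ∧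
        ∀ t, (∃ x, ∀ i, classVec g P t i - x * f i ∈ I) → ∀ i, classVec g P t i ∈ I := by
    intro n
    induction n with
    | zero =>
      intro T I hT hI hT1 hT2
      by_cases htop : I = ⊤
      · exfalso
        obtain ⟨v, hv⟩ := hT2 z (by rw [htop, Submodule.top_smul]; trivial)
        have hTu : T = Finset.univ := by
          rw [← Finset.compl_eq_empty_iff]
          exact Finset.card_eq_zero.1 hT
        rw [hTu] at hv
        exact hz' v hv
      · refine ⟨I, htop, hI, ?_⟩
        intro t _ i
        apply hT1
        have hTu : T = Finset.univ := by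
          rw [← Finset.compl_eq_empty_iff]
          exact Finset.card_eq_zero.1 hT
        rw [hTu]
        exact Finset.mem_univ _
    | succ n ih =>
      intro T I hT hI hT1 hT2
      by_cases htop : I = ⊤
      · exfalso
        obtain ⟨v, hv⟩ := hT2 (z - ∑ t ∈ Tᶜ, ∑ i, classVec g P t i • a t i 0)
          (by rw [htop, Submodule.top_smul]; trivial)
        apply hz' (fun t => if t ∈ T then v t else 0)
        rw [← Finset.sum_add_sum_compl T]
        have e1 : ∑ t ∈ T, ∑ i, classVec g P t i • a t i (if t ∈ T then v t else 0)
            = ∑ t ∈ T, ∑ i, classVec g P t i • a t i (v t) :=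
          Finset.sum_congr rfl fun t ht => by rw [if_pos ht]
        have e2 : ∑ t ∈ Tᶜ, ∑ i, classVec g P t i • a t i (if t ∈ T then v t else 0)
            = ∑ t ∈ Tᶜ, ∑ i, classVec g P t i • a t i 0 :=
          Finset.sum_congr rfl fun t ht => by rw [if_neg (Finset.mem_compl.1 ht)]
        rw [e1, e2, hv]
        abel
      · by_cases hcl : ∀ t, (∃ x, ∀ i, classVec g P t i - x * f i ∈ I) →
            ∀ i, classVec g P t i ∈ I
        · exact ⟨I, htop, hI, hcl⟩
        · push Not at hcl
          obtain ⟨t, ⟨x, hx⟩, i0, hi0⟩ := hcl
          have htT : t ∉ T := fun htT => hi0 (hT1 t htT i0)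
          apply ih (insert t T) (I ⊔ Ideal.span {x})
          · have h1 := Finset.card_add_card_compl T
            have h2 := Finset.card_add_card_compl (insert t T)
            rw [Finset.card_insert_of_notMem htT] at h2
            omega
          · exact hI.trans le_sup_left
          · intro t' ht' i
            rcases Finset.mem_insert.1 ht' with rfl | ht'
            · have h1 : classVec g P t' i = (classVec g P t' i - x * f i) + x * f i := by ring
              rw [h1]
              exact Submodule.add_mem_sup (hx i)
                (Ideal.mul_mem_right _ _ (Ideal.mem_span_singleton_self x))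
            · exact (le_sup_left : I ≤ I ⊔ Ideal.span {x}) (hT1 t' ht' i)
          · intro y hy
            rw [Submodule.sup_smul, Submodule.mem_sup] at hy
            obtain ⟨y1, hy1, y2, hy2, rfl⟩ := hy
            rw [Submodule.ideal_span_singleton_smul] at hy2
            obtain ⟨w, -, rfl⟩ := hy2
            have h1 : ∑ i, classVec g P t i • a t i w
                = ∑ i, (classVec g P t i - x * f i) • a t i w + x • w := by
              have h0 : x • w = ∑ i, (x * f i) • a t i w := by
                conv_lhs => rw [← ha t w]
                rw [Finset.smul_sum]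
                exact Finset.sum_congr rfl fun i _ => (mul_smul _ _ _).symm
              rw [h0, ← Finset.sum_add_distrib]
              refine Finset.sum_congr rfl fun i _ => ?_
              rw [sub_smul]
              abel
            have h2 : y1 - ∑ i, (classVec g P t i - x * f i) • a t i w
                ∈ I • (⊤ : Submodule R W) := by
              apply Submodule.sub_mem _ hy1
              exact Submodule.sum_mem _ fun i _ => Submodule.smul_mem_smul (hx i) trivial
            obtain ⟨v, hv⟩ := hT2 _ h2
            refine ⟨fun t' => if t' = t then w else v t', ?_⟩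
            rw [Finset.sum_insert htT]
            have e0 : ∑ i, classVec g P t i • a t i (if t = t then w else v t)
                = ∑ i, (classVec g P t i - x * f i) • a t i w + x • w := by
              rw [if_pos rfl, h1]
            have e1 : ∑ t' ∈ T, ∑ i, classVec g P t' i • a t' i (if t' = t then w else v t')
                = ∑ t' ∈ T, ∑ i, classVec g P t' i • a t' i (v t') :=
              Finset.sum_congr rfl fun t' ht' => by
                have : t' ≠ t := by
                  rintro rfl
                  exact htT ht'
                rw [if_neg this]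
            refine (congrArg₂ (· + ·) e0 e1).trans ?_
            rw [hv]
            show _ = y1 + x • w
            abel
  obtain ⟨I, h1, h2, h3⟩ := key _ ∅ I0 rfl le_rfl (by simp) (by
    intro y hy
    refine ⟨0, ?_⟩
    have h1 : I0 • (⊤ : Submodule R W) = ⊥ := by
      rw [hI0]
      rw [eq_bot_iff, Submodule.smul_le]; intro r hr w _; rw [Submodule.mem_bot]; exact Module.mem_annihilator.1 hr w
    rw [h1, Submodule.mem_bot] at hy
    rw [hy, Finset.sum_empty])
  refine ⟨I, h1, ?_, ?_, h3⟩
  · exact Finite.of_surjective (Ideal.Quotient.factor h2) (Ideal.Quotient.factor_surjective h2)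
  · apply top_le_iff.1
    rw [← hcom0]
    exact sup_le_sup_right h2 _

end Pool.Agent.TH282.LF
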