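import Mathlib
import Pool.Agent.TH282.LF.CharP

/-!
# Property (S) over commutative rings of prime characteristic
-/

set_option autoImplicit false

open Finset

universe u

namespace Pool.Agent.TH282.LF

open H183R3.LF

/-- additive functionals on `R ⧸ I` with values in `ZMod p` -/
def Dual (R : Type u) [CommRing R] (I : Ideal R) (p : ℕ) : Type u := (R ⧸ I) →+ ZMod p

/-- the underlying additive map -/
def Dual.hom {R : Type u} [CommRing R] {I : Ideal R} {p : ℕ} (φ : Dual R I p) :
    (R ⧸ I) →+ ZMod p := φ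

noncomputable instance (R : Type u) [CommRing R] (I : Ideal R) (p : ℕ) :
    AddCommGroup (Dual R I p) := inferInstanceAs (AddCommGroup ((R ⧸ I) →+ ZMod p))

noncomputable instance (R : Type u) [CommRing R] (I : Ideal R) (p : ℕ) :
    Module R (Dual R I p) where
  smul r φ := AddMonoidHom.comp φ.hom (AddMonoidHom.mulLeft (Ideal.Quotient.mk I r))
  one_smul φ := by
    refine AddMonoidHom.ext fun v => ?_
    show φ.hom (Ideal.Quotient.mk I 1 * v) = φ.hom v
    rw [map_one, one_mul]
  mul_smul r s φ := by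
    refine AddMonoidHom.ext fun v => ?_
    show φ.hom (Ideal.Quotient.mk I (r * s) * v)
      = φ.hom (Ideal.Quotient.mk I s * (Ideal.Quotient.mk I r * v))
    have h1 : Ideal.Quotient.mk I (r * s) * v
        = Ideal.Quotient.mk I s * (Ideal.Quotient.mk I r * v) := by
      rw [(Ideal.Quotient.mk I).map_mul]
      ring
    rw [h1]
  smul_zero r := rfl
  smul_add r φ ψ := rfl
  add_smul r s φ := by
    refine AddMonoidHom.ext fun v => ?_
    show φ.hom (Ideal.Quotient.mk I (r + s) * v)
      = φ.hom (Ideal.Quotient.mk I r * v) + φ.hom (Ideal.Quotient.mk I s * v)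
    rw [map_add, add_mul, map_add]
  zero_smul φ := by
    refine AddMonoidHom.ext fun v => ?_
    show φ.hom (Ideal.Quotient.mk I 0 * v) = 0
    rw [map_zero, zero_mul, map_zero]

/-- evaluation of a functional -/
def Dual.eval {R : Type u} [CommRing R] {I : Ideal R} {p : ℕ} (v : R ⧸ I) :
    Dual R I p →+ ZMod p where
  toFun φ := φ.hom v
  map_zero' := rfl
  map_add' _ _ := rfl

lemma Dual.ext' {R : Type u} [CommRing R] {I : Ideal R} {p : ℕ} {φ ψ : Dual R I p}
    (h : ∀ v, Dual.eval v φ = Dual.eval v ψ) : φ = ψ :=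
  (AddMonoidHom.ext h : φ.hom = ψ.hom)

lemma Dual.eval_smul {R : Type u} [CommRing R] {I : Ideal R} {p : ℕ} (v : R ⧸ I) (r : R)
    (φ : Dual R I p) : Dual.eval v (r • φ) = Dual.eval (Ideal.Quotient.mk I r * v) φ := rfl

/-- multiplication by a scalar of `ZMod p` -/
def Dual.scale {R : Type u} [CommRing R] {I : Ideal R} {p : ℕ} (s : ZMod p) (φ : Dual R I p) :
    Dual R I p := AddMonoidHom.comp (AddMonoidHom.mulLeft s) φ.hom

lemma Dual.eval_scale {R : Type u} [CommRing R] {I : Ideal R} {p : ℕ} (v : R ⧸ I) (s : ZMod p)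
    (φ : Dual R I p) : Dual.eval v (Dual.scale s φ) = s * Dual.eval v φ := rfl

lemma finite_dual (R : Type u) [CommRing R] (I : Ideal R) [Finite (R ⧸ I)] (p : ℕ) [NeZero p] :
    Finite (Dual R I p) := by
  apply Finite.of_injective (fun (φ : Dual R I p) (v : R ⧸ I) => Dual.eval v φ)
  intro φ ψ h
  exact Dual.ext' fun v => congrFun h v

lemma exists_functional_aux (p : ℕ) [Fact p.Prime] {M : Type u} [AddCommGroup M]
    [Module (ZMod p) M] (N : AddSubgroup M) {x : M} (hx : x ∉ N) :
    ∃ φ : M →+ ZMod p, (∀ y ∈ N, φ y = 0) ∧ φ x = 1 := by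
  have hx' : x ∉ AddSubgroup.toZModSubmodule p N := by
    rwa [AddSubgroup.mem_toZModSubmodule]
  obtain ⟨φ, h1, h2⟩ := Submodule.exists_dual_map_eq_bot_of_notMem hx' inferInstance
  refine ⟨(AddMonoidHom.mulLeft ((φ x)⁻¹)).comp φ.toAddMonoidHom, ?_, ?_⟩
  · intro y hy
    have h3 : φ y ∈ (AddSubgroup.toZModSubmodule p N).map φ := ⟨y, hy, rfl⟩
    rw [h2, Submodule.mem_bot] at h3
    show (φ x)⁻¹ * φ y = 0
    rw [h3, mul_zero]
  · show (φ x)⁻¹ * φ x = 1
    exact inv_mul_cancel₀ h1

lemma exists_functional (p : ℕ) [Fact p.Prime] {M : Type u} [AddCommGroup M]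
    (hp : ∀ x : M, p • x = 0) (N : AddSubgroup M) {x : M} (hx : x ∉ N) :
    ∃ φ : M →+ ZMod p, (∀ y ∈ N, φ y = 0) ∧ φ x = 1 :=
  @exists_functional_aux p _ M _ (AddCommGroup.zmodModule hp) N x hx

/-- In characteristic `p` a pattern with a closed ideal is avoidable. -/
theorem avoidable_of_closed {R : Type u} [CommRing R] (p : ℕ) [Fact p.Prime] [CharP R p]
    {h l : ℕ} (f : Fin h → R) (g : Fin l → R) (P : Fin l → Fin h × Fin l)
    (I : Ideal R) (hI : I ≠ ⊤) (hfin : Finite (R ⧸ I)) (hcom : I ⊔ Ideal.span (Set.range f) = ⊤)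
    (hcl : ∀ t, (∃ x, ∀ i, classVec g P t i - x * f i ∈ I) → ∀ i, classVec g P t i ∈ I) :
    Avoidable R f g P := by
  classical
  have : Finite (Dual R I p) := finite_dual R I p
  have hpV : ∀ v : R ⧸ I, p • v = 0 := by
    intro v
    obtain ⟨r, rfl⟩ := Ideal.Quotient.mk_surjective v
    rw [← map_nsmul, nsmul_eq_mul, CharP.cast_eq_zero, zero_mul, map_zero]
  have h10 : (1 : R ⧸ I) ∉ (⊥ : AddSubgroup (R ⧸ I)) := by
    rw [AddSubgroup.mem_bot]
    intro h1
    apply hI
    rw [Ideal.eq_top_iff_one]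
    exact Ideal.Quotient.eq_zero_iff_mem.1 (by rw [map_one]; exact h1)
  obtain ⟨z, -, hz⟩ := exists_functional p hpV ⊥ h10
  obtain ⟨e, he⟩ : ∃ e : Fin h → R, ∑ i, f i * e i - 1 ∈ I := by
    have h1 : (1 : R) ∈ I ⊔ Ideal.span (Set.range f) := by rw [hcom]; trivial
    obtain ⟨y, hy, w, hw, hyw⟩ := Submodule.mem_sup.1 h1
    obtain ⟨c, hc⟩ := (Ideal.mem_span_range_iff_exists_fun).1 hw
    refine ⟨c, ?_⟩
    have h2 : ∑ i, f i * c i - 1 = -y := by
      rw [← hyw, ← hc]
      have : ∑ i, f i * c i = ∑ i, c i * f i := Finset.sum_congr rfl fun i _ => mul_comm _ _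
      rw [this]
      ring
    rw [h2]
    exact I.neg_mem hy
  have hact : ∀ (r : R) (φ : Dual R I p), r ∈ I → r • φ = 0 := by
    intro r φ hr
    apply Dual.ext'
    intro v
    rw [Dual.eval_smul, Ideal.Quotient.eq_zero_iff_mem.2 hr, zero_mul]
    exact map_zero φ.hom
  have hone : ∀ φ : Dual R I p, ∑ i, f i • e i • φ = φ := by
    intro φ
    have h1 := hact _ φ he
    rw [sub_smul, one_smul, sub_eq_zero, Finset.sum_smul] at h1
    rw [← h1]
    refine (Finset.sum_congr rfl fun i _ => ?_)
    rw [h1, mul_smul]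
  -- the functions of one class
  have hclass : ∀ t : Fin l, ∃ a : Fin h → Dual R I p → Dual R I p,
      (∀ u, ∑ i, f i • a i u = u) ∧
        ∀ u, Dual.eval 1 (∑ i, classVec g P t i • a i u) = 0 := by
    intro t
    by_cases ht : ∀ i, classVec g P t i ∈ I
    · refine ⟨fun i φ => e i • φ, hone, fun u => ?_⟩
      have : ∑ i, classVec g P t i • e i • u = 0 :=
        Finset.sum_eq_zero fun i _ => hact _ _ (ht i)
      rw [this, map_zero]
    · -- a functional on the free module
      let N : AddSubgroup (Fin h → R ⧸ I) :=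
        (Submodule.span (R ⧸ I) {fun i => Ideal.Quotient.mk I (f i)}).toAddSubgroup
      have hcN : (fun i => Ideal.Quotient.mk I (classVec g P t i)) ∉ N := by
        intro hmem
        apply ht
        apply hcl t
        obtain ⟨x, hx⟩ := Submodule.mem_span_singleton.1 hmem
        obtain ⟨x, rfl⟩ := Ideal.Quotient.mk_surjective x
        refine ⟨x, fun i => ?_⟩
        rw [← Ideal.Quotient.eq_zero_iff_mem, map_sub, map_mul, sub_eq_zero]
        have := congrFun hx i
        rw [← this]
        rfl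
      obtain ⟨Φ, hΦ1, hΦ2⟩ := exists_functional p (M := Fin h → R ⧸ I)
        (fun v => funext fun i => hpV (v i)) N hcN
      let Ψ : Fin h → Dual R I p := fun i => Φ.comp (AddMonoidHom.single (fun _ => R ⧸ I) i)
      have hΨ : ∀ v : Fin h → R ⧸ I, ∑ i, Dual.eval (v i) (Ψ i) = Φ v := by
        intro v
        conv_rhs => rw [← Finset.univ_sum_single v, map_sum]
        exact Finset.sum_congr rfl fun i _ => rfl
      refine ⟨fun i φ => e i • φ -
        Dual.scale (Dual.eval 1 (∑ k, classVec g P t k • e k • φ)) (Ψ i), ?_, ?_⟩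
      · intro φ
        simp only [smul_sub, Finset.sum_sub_distrib]
        rw [hone, sub_eq_self]
        apply Dual.ext'
        intro v
        rw [map_sum]
        simp only [Dual.eval_smul, Dual.eval_scale]
        rw [← Finset.mul_sum, hΨ (fun i => Ideal.Quotient.mk I (f i) * v), hΦ1, mul_zero, map_zero]
        have h1 : (fun i => Ideal.Quotient.mk I (f i) * v)
            = v • (fun i => Ideal.Quotient.mk I (f i)) := by
          funext i
          simp [mul_comm]
        rw [h1]
        exact Submodule.smul_mem _ _ (Submodule.mem_span_singleton_self _)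
      · intro φ
        simp only [smul_sub, Finset.sum_sub_distrib]
        rw [map_sub, map_sum (Dual.eval 1) (fun i => classVec g P t i • Dual.scale _ (Ψ i))]
        simp only [Dual.eval_smul, Dual.eval_scale, mul_one]
        rw [← Finset.mul_sum, hΨ (fun i => Ideal.Quotient.mk I (classVec g P t i)), hΦ2, mul_one,
          sub_self]
  choose a ha1 ha2 using hclass
  refine ⟨Dual R I p, inferInstance, inferInstance, this, a, z, ha1, ?_⟩
  intro u heq
  rw [sum_classVec] at heq
  have h1 := congrArg (Dual.eval 1) heq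
  rw [map_sum, Finset.sum_eq_zero (fun t _ => ha2 t (u t))] at h1
  have h2 : Dual.eval 1 (z : Dual R I p) = (1 : ZMod p) := hz
  rw [h2] at h1
  exact zero_ne_one h1

end Pool.Agent.TH282.LF
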