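import Mathlib
import Pool.Agent.TH282.LF.CharP

/-!
# Property (S) over residually finite commutative rings, unit coefficients, `l < 2 h`
-/

set_option autoImplicit false

open Finset

universe u

namespace Pool.Agent.TH282.LF

open H183R3.LF

variable {R : Type u} [CommRing R]

lemma smul_quot (I : Ideal R) (r : R) (v : R ⧸ I) : r • v = Ideal.Quotient.mk I r * v := by
  rw [Algebra.smul_def]
  rfl

/-- a class with one coefficient in `I` contributes nothing -/
lemma null_quot {h l : ℕ} (f e : Fin h → R) (he : ∀ i, e i * f i = 1) (g : Fin l → R)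
    (P : Fin l → Fin h × Fin l) (I : Ideal R) (t : Fin l) (ht : ∃ i, classVec g P t i ∈ I) :
    ∃ a : Fin h → R ⧸ I → R ⧸ I, (∀ v, ∑ i, f i • a i v = v) ∧
      ∀ v, ∑ i, classVec g P t i • a i v = 0 := by
  classical
  obtain ⟨i0, hi0⟩ := ht
  refine ⟨fun i v => if i = i0 then e i0 • v else 0, ?_, ?_⟩
  · intro v
    rw [Finset.sum_eq_single i0]
    · show f i0 • (if i0 = i0 then e i0 • v else 0) = v
      rw [if_pos rfl, smul_smul, mul_comm, he, one_smul]
    · intro i _ hi
      simp [hi]
    · intro h
      exact absurd (Finset.mem_univ _) h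
  · intro v
    rw [Finset.sum_eq_single i0]
    · show classVec g P t i0 • (if i0 = i0 then e i0 • v else 0) = 0
      rw [if_pos rfl, smul_quot, Ideal.Quotient.eq_zero_iff_mem.2 hi0, zero_mul]
    · intro i _ hi
      simp [hi]
    · intro h
      exact absurd (Finset.mem_univ _) h

lemma avoid_quot_null {h l : ℕ} (f e : Fin h → R) (he : ∀ i, e i * f i = 1) (g : Fin l → R)
    (P : Fin l → Fin h × Fin l) (I : Ideal R) (hI : I ≠ ⊤) (hfin : Finite (R ⧸ I))
    (ht : ∀ t, ∃ i, classVec g P t i ∈ I) : Avoidable R f g P := by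
  have : Nontrivial (R ⧸ I) := Ideal.Quotient.nontrivial_iff.2 hI
  choose a ha1 ha2 using fun t => null_quot f e he g P I t (ht t)
  refine ⟨R ⧸ I, inferInstance, inferInstance, hfin, a, 1, ha1, ?_⟩
  intro u
  rw [sum_classVec, Finset.sum_eq_zero (fun t _ => ha2 t (u t))]
  exact zero_ne_one

lemma avoid_quot_section {h l : ℕ} (f e : Fin h → R) (he : ∀ i, e i * f i = 1) (g : Fin l → R)
    (P : Fin l → Fin h × Fin l) (I : Ideal R) (hfin : Finite (R ⧸ I)) (t0 : Fin l)
    (i i' : Fin h) (hd : e i * classVec g P t0 i - e i' * classVec g P t0 i' ∉ I)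
    (ht : ∀ t, t ≠ t0 → ∃ i, classVec g P t i ∈ I) : Avoidable R f g P := by
  classical
  have hmkf : ∀ i, Ideal.Quotient.mk I (f i) * Ideal.Quotient.mk I (e i) = 1 := by
    intro i
    rw [← map_mul, mul_comm, he, map_one]
  set d : Fin h → R ⧸ I := fun i =>
    Ideal.Quotient.mk I (e i) * Ideal.Quotient.mk I (classVec g P t0 i) with hdd
  have hd' : d i - d i' ≠ 0 := by
    intro h0
    apply hd
    rw [← Ideal.Quotient.eq_zero_iff_mem, map_sub, map_mul, map_mul]
    exact h0
  have hcl : ∀ t, ∃ a : Fin h → R ⧸ I → R ⧸ I, (∀ v, ∑ i, f i • a i v = v) ∧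
      ((t ≠ t0 → ∀ v, ∑ i, classVec g P t i • a i v = 0) ∧
       (t = t0 → ∀ v, ∑ i, classVec g P t i • a i v ≠ 0)) := by
    intro t
    by_cases htt : t = t0
    · subst htt
      refine ⟨fun k v => (if k = i then Ideal.Quotient.mk I (e i) *
          (v - if d i * v = 0 then 1 else 0) else 0) +
          (if k = i' then Ideal.Quotient.mk I (e i') * (if d i * v = 0 then 1 else 0) else 0),
        ?_, fun h => absurd rfl h, fun _ => ?_⟩
      · intro v
        simp only [smul_quot, mul_add, mul_ite, mul_zero, Finset.sum_add_distrib,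
          Finset.sum_ite_eq', Finset.mem_univ, if_true]
        by_cases hv : d i * v = 0
        · simp only [hv, if_true]
          linear_combination (v - 1) * hmkf i + hmkf i'
        · simp only [hv, if_false]
          linear_combination v * hmkf i
      · intro v
        simp only [smul_quot, mul_add, mul_ite, mul_zero, Finset.sum_add_distrib,
          Finset.sum_ite_eq', Finset.mem_univ, if_true]
        by_cases hv : d i * v = 0
        · simp only [hv, if_true]
          intro h0
          apply hd'
          simp only [hdd] at hv ⊢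
          linear_combination hv - h0
        · simp only [hv, if_false]
          intro h0
          apply hv
          simp only [hdd]
          linear_combination h0
    · obtain ⟨a, h1, h2⟩ := null_quot f e he g P I t (ht t htt)
      exact ⟨a, h1, fun _ => h2, fun h => absurd h htt⟩
  choose a ha1 ha2 ha3 using hcl
  refine ⟨R ⧸ I, inferInstance, inferInstance, hfin, a, 0, ha1, ?_⟩
  intro u
  rw [sum_classVec, Finset.sum_eq_single t0]
  · exact ha3 t0 rfl _
  · intro t _ htt
    exact ha2 t htt _
  · intro h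
    exact absurd (Finset.mem_univ _) h

/-- Negative criterion: a class which is `c f` with `c` in no proper ideal of finite index. -/
lemma not_propertyS_one {h l : ℕ} (f : Fin h → R) (g : Fin l → R)
    (hh : 0 < h) (J : Fin h → Finset (Fin l)) (c : R)
    (hJ : ∀ i i', i ≠ i' → Disjoint (J i) (J i'))
    (h1 : ∀ i, ∑ j ∈ J i, g j = c * f i)
    (hc : ∀ I : Ideal R, I ≠ ⊤ → Finite (R ⧸ I) → c ∉ I) : ¬ PropertyS R f g := by
  classical
  intro hS
  obtain ⟨W, _, _, _, A, hW, hF, hG⟩ := hS 1 one_pos 1 one_pos
  rw [one_mul] at hG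
  have hG' : formImage g A ≠ Set.univ := by
    intro h1
    rw [h1] at hG
    have h2 : Nat.card (Set.univ : Set W) = Nat.card W := by
      rw [Nat.card_coe_set_eq, Set.ncard_univ]
    rw [h2] at hG
    exact lt_irrefl _ hG
  obtain ⟨z, hz⟩ := (Set.ne_univ_iff_exists_notMem _).1 hG'
  have hF' : ∀ w : W, ∃ y : Fin h → W, (∀ i, y i ∈ A) ∧ w = ∑ i, f i • y i := fun w => by
    have : w ∈ formImage f A := by rw [hF]; trivial
    exact this
  choose rp rp1 rp2 using hF'
  set I0 : Ideal R := Module.annihilator R W with hI0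
  have hfin0 : Finite (R ⧸ I0) := by
    let φ : R ⧸ I0 → (W → W) := Quotient.lift (s := Submodule.quotientRel I0)
      (fun r w => r • w) (by
        intro r s hrs
        have h1 : r - s ∈ I0 := (Submodule.quotientRel_def I0).1 hrs
        funext w
        have h2 := (Module.mem_annihilator.1 h1) w
        rw [sub_smul, sub_eq_zero] at h2
        exact h2)
    apply Finite.of_injective φ
    intro x y hxy
    obtain ⟨r, rfl⟩ := Ideal.Quotient.mk_surjective x
    obtain ⟨s, rfl⟩ := Ideal.Quotient.mk_surjective y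
    rw [Ideal.Quotient.eq, Module.mem_annihilator]
    intro w
    have : r • w = s • w := congrFun hxy w
    rw [sub_smul, this, sub_self]
  have htop : I0 ⊔ Ideal.span {c} = ⊤ := by
    by_contra hne
    refine hc _ hne ?_ (Ideal.mem_sup_right (Ideal.mem_span_singleton_self c))
    exact Finite.of_surjective (Ideal.Quotient.factor (le_sup_left : I0 ≤ I0 ⊔ Ideal.span {c}))
      (Ideal.Quotient.factor_surjective _)
  obtain ⟨b, hb⟩ : ∃ b : R, ∀ w : W, c • b • w = w := by
    have h2 : (1 : R) ∈ I0 ⊔ Ideal.span {c} := by rw [htop]; trivial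
    obtain ⟨y, hy, x, hx, hyx⟩ := Submodule.mem_sup.1 h2
    obtain ⟨b, rfl⟩ := Ideal.mem_span_singleton'.1 hx
    refine ⟨b, fun w => ?_⟩
    have h3 : (y + b * c) • w = w := by rw [hyx, one_smul]
    rw [add_smul, (Module.mem_annihilator.1 hy) w, zero_add] at h3
    rw [smul_smul, mul_comm, h3]
  set a0 : W := rp 0 ⟨0, hh⟩ with ha0
  set U : Finset (Fin l) := Finset.univ.biUnion J with hU
  set y' : W := z - ∑ j ∈ Uᶜ, g j • a0 with hy'
  set w1 : W := b • y' with hw1
  apply hz
  refine ⟨fun j => if hj : ∃ k, j ∈ J k then rp w1 hj.choose else a0, ?_, ?_⟩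
  · intro j
    dsimp only
    split_ifs with hj
    · exact rp1 _ _
    · exact rp1 _ _
  · rw [← Finset.sum_add_sum_compl U]
    have e1 : ∑ j ∈ U, g j • (if hj : ∃ k, j ∈ J k then rp w1 hj.choose else a0)
        = ∑ k, (∑ j ∈ J k, g j) • rp w1 k := by
      rw [hU, Finset.sum_biUnion]
      · refine Finset.sum_congr rfl fun k _ => ?_
        rw [Finset.sum_smul]
        refine Finset.sum_congr rfl fun j hj => ?_
        have hex : ∃ k, j ∈ J k := ⟨k, hj⟩
        rw [dif_pos hex]
        have : hex.choose = k := by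
          by_contra hne
          exact (Finset.disjoint_left.1 (hJ _ _ hne) hex.choose_spec) hj
        rw [this]
      · intro k _ k' _ hkk
        exact hJ k k' hkk
    have e2 : ∑ j ∈ Uᶜ, g j • (if hj : ∃ k, j ∈ J k then rp w1 hj.choose else a0)
        = ∑ j ∈ Uᶜ, g j • a0 := by
      refine Finset.sum_congr rfl fun j hj => ?_
      have : ¬ ∃ k, j ∈ J k := by
        rintro ⟨k, hk⟩
        rw [Finset.mem_compl] at hj
        exact hj (Finset.mem_biUnion.2 ⟨k, Finset.mem_univ _, hk⟩)
      rw [dif_neg this]
    have e3 : ∑ i, (∑ j ∈ J i, g j) • rp w1 i = c • w1 := by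
      have e5 : c • w1 = ∑ i, (c * f i) • rp w1 i := by
        conv_lhs => rw [rp2 w1]
        rw [Finset.smul_sum]
        exact Finset.sum_congr rfl fun i _ => (mul_smul _ _ _).symm
      rw [e5]
      exact Finset.sum_congr rfl fun i _ => by rw [h1]
    rw [e1, e2, e3, hw1, hb, hy']
    abel

/-- Classification over residually finite commutative rings. -/
theorem classification_resfinite [Nontrivial R]
    (hres : ∀ r : R, r ≠ 0 → ∃ I : Ideal R, Finite (R ⧸ I) ∧ r ∉ I)
    {h l : ℕ} (f : Fin h → R) (g : Fin l → R) (hh : 0 < h) (hl : 0 < l)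
    (hf : ∀ i, IsUnit (f i)) (hlt : l < 2 * h) :
    PropertyS R f g ↔ ¬ ∃ (J : Fin h → Finset (Fin l)) (c : R),
      (∀ i i', i ≠ i' → Disjoint (J i) (J i')) ∧ (∀ i, ∑ j ∈ J i, g j = c * f i) ∧
      ∀ I : Ideal R, I ≠ ⊤ → Finite (R ⧸ I) → c ∉ I := by
  classical
  constructor
  · rintro hS ⟨J, c, h1, h2, h3⟩
    exact not_propertyS_one f g hh J c h1 h2 h3 hS
  · intro hno
    rw [propertyS_iff R f g hh hl]
    intro P
    have hex : ∀ i, ∃ e : R, e * f i = 1 := fun i => by
      obtain ⟨e, he⟩ := (hf i).exists_left_inv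
      exact ⟨e, he⟩
    choose e he using hex
    have hnf : ∀ t, ¬ (∀ i, ∃ j, P j = (i, t)) → ∃ i, classVec g P t i = 0 := by
      intro t ht
      push Not at ht
      obtain ⟨i, hi⟩ := ht
      refine ⟨i, ?_⟩
      unfold classVec
      rw [Finset.filter_false_of_mem (fun j _ => hi j), Finset.sum_empty]
    have hfull : ∀ t1 t2 : Fin l, t1 ≠ t2 → (∀ i, ∃ j, P j = (i, t1)) →
        (∀ i, ∃ j, P j = (i, t2)) → False := by
      intro t1 t2 h12 F1 F2
      have hex : ∀ q : Fin h × Bool, ∃ j, P j = (q.1, if q.2 then t1 else t2) := by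
        rintro ⟨i, k⟩
        cases k
        · exact F2 i
        · exact F1 i
      choose φ hφ using hex
      have hinj : Function.Injective φ := by
        rintro ⟨i, k⟩ ⟨i', k'⟩ he
        have h1 := hφ (i, k)
        rw [he, hφ (i', k')] at h1
        have h2 := Prod.mk.inj h1
        have h3 : k = k' := by
          have h4 := h2.2
          cases k <;> cases k'
          · rfl
          · exact absurd h4 (by simpa using h12)
          · exact absurd h4 (by simpa using h12.symm)
          · rfl
        rw [h3, Prod.mk.injEq]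
        exact ⟨h2.1.symm, rfl⟩
      have := Fintype.card_le_of_injective φ hinj
      simp only [Fintype.card_prod, Fintype.card_fin, Fintype.card_bool] at this
      omega
    by_cases h0 : ∃ t0, ∀ i, ∃ j, P j = (i, t0)
    · obtain ⟨t0, hfull0⟩ := h0
      have hrest : ∀ (I : Ideal R), ∀ t, t ≠ t0 → ∃ i, classVec g P t i ∈ I := by
        intro I t ht
        obtain ⟨i, hi⟩ := hnf t (fun hcon => hfull t t0 ht hcon hfull0)
        exact ⟨i, by rw [hi]; exact I.zero_mem⟩
      by_cases hd : ∃ i i', e i * classVec g P t0 i - e i' * classVec g P t0 i' ≠ 0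
      · obtain ⟨i, i', hii⟩ := hd
        obtain ⟨I, hfin, hI⟩ := hres _ hii
        exact avoid_quot_section f e he g P I hfin t0 i i' hI (hrest I)
      · push Not at hd
        set c : R := e ⟨0, hh⟩ * classVec g P t0 ⟨0, hh⟩ with hc
        have hcc : ∀ i, classVec g P t0 i = c * f i := by
          intro i
          have h3 := hd i ⟨0, hh⟩
          rw [← hc, sub_eq_zero] at h3
          rw [← h3]
          linear_combination (-(classVec g P t0 i)) * he i
        have hI : ∃ I : Ideal R, I ≠ ⊤ ∧ Finite (R ⧸ I) ∧ c ∈ I := by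
          by_contra hcon
          push Not at hcon
          apply hno
          refine ⟨fun i => Finset.univ.filter (fun j => P j = (i, t0)), c, ?_, hcc, hcon⟩
          intro i i' hii
          rw [Finset.disjoint_left]
          intro j hj hj'
          simp only [Finset.mem_filter, Finset.mem_univ, true_and] at hj hj'
          rw [hj] at hj'
          exact hii (Prod.mk.inj hj').1
        obtain ⟨I, hI1, hI2, hI3⟩ := hI
        apply avoid_quot_null f e he g P I hI1 hI2
        intro t
        by_cases htt : t = t0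
        · subst htt
          exact ⟨⟨0, hh⟩, by rw [hcc]; exact I.mul_mem_right _ hI3⟩
        · exact hrest I t htt
    · push Not at h0
      obtain ⟨I, hfin, hI⟩ := hres 1 one_ne_zero
      apply avoid_quot_null f e he g P I ((Ideal.ne_top_iff_one I).2 hI) hfin
      intro t
      obtain ⟨i, hi⟩ := h0 t
      obtain ⟨i2, hi2⟩ := hnf t (fun hcon => by
        obtain ⟨j, hj⟩ := hcon i
        exact hi j hj)
      exact ⟨i2, by rw [hi2]; exact I.zero_mem⟩

end Pool.Agent.TH282.LF
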